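import Pool.Agent.H77.KG.Targets

/-!
# MP_9d0bb7_lc, board kgr_modules: rows NPI and QKK
-/

set_option autoImplicit false

namespace Pool.Agent.H66.KGR

open Set Pool.Agent.H77.BC Pool.Agent.H77.BD Pool.Agent.H77.KG

theorem pf_NPI : T_NPI := by
  classical
  intro G I _ _ L _ e hsim hnc X hX
  haveI : Fintype I := Fintype.ofFinite I
  have key : ∀ i, (∃ g ∈ X, e g i ≠ 1) → ∀ a : L i, e.symm (Pi.mulSingle i a) ∈ X := by
    rintro i ⟨g, hg, hgi⟩
    let K : Subgroup (L i) := X.comap ((e.symm : (∀ i, L i) →* G).comp (MonoidHom.mulSingle L i))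
    haveI hK : K.Normal := Subgroup.Normal.comap hX _
    haveI := hsim i
    have hmem : ∀ a : L i, a ∈ K ↔ e.symm (Pi.mulSingle i a) ∈ X := fun a => Iff.rfl
    rcases hK.eq_bot_or_eq_top with h | h
    · exfalso
      have hcen : e g i ∈ Subgroup.center (L i) := by
        rw [Subgroup.mem_center_iff]
        intro a
        have h1 : e g i * a * (e g i)⁻¹ * a⁻¹ ∈ K := by
          rw [hmem]
          have h2 : e.symm (Pi.mulSingle i (e g i * a * (e g i)⁻¹ * a⁻¹)) =
              g * (e.symm (Pi.mulSingle i a) * g⁻¹ * (e.symm (Pi.mulSingle i a))⁻¹) := by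
            apply e.injective
            rw [MulEquiv.apply_symm_apply]
            simp only [map_mul, map_inv, MulEquiv.apply_symm_apply]
            funext j
            by_cases hj : j = i
            · subst hj
              simp [mul_assoc]
            · simp [Pi.mulSingle_eq_of_ne hj]
          rw [h2]
          exact X.mul_mem hg (hX.conj_mem _ (X.inv_mem hg) _)
        rw [h, Subgroup.mem_bot] at h1
        rw [mul_inv_eq_one, mul_inv_eq_iff_eq_mul] at h1
        exact h1.symm
      rcases (inferInstance : (Subgroup.center (L i)).Normal).eq_bot_or_eq_top with h3 | h3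
      · rw [h3, Subgroup.mem_bot] at hcen
        exact hgi hcen
      · obtain ⟨a, b, hab⟩ := hnc i
        apply hab
        have : b ∈ Subgroup.center (L i) := by rw [h3]; exact Subgroup.mem_top b
        exact (Subgroup.mem_center_iff.1 this a)
    · intro a
      rw [← hmem, h]
      exact Subgroup.mem_top a
  refine ⟨{i | ∃ g ∈ X, e g i ≠ 1}, le_antisymm ?_ ?_⟩
  · intro g hg i hi
    by_contra h
    exact hi ⟨g, hg, h⟩
  · intro g hg
    have hg' : ∀ i, i ∉ {i | ∃ g ∈ X, e g i ≠ 1} → e g i = 1 := hg
    have hone : ∀ i, e.symm (Pi.mulSingle i (e g i)) ∈ X := by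
      intro i
      by_cases hi : ∃ g ∈ X, e g i ≠ 1
      · exact key i hi _
      · rw [hg' i hi, Pi.mulSingle_one, map_one]
        exact X.one_mem
    have hind : ∀ s : Finset I, e.symm (fun i => if i ∈ s then e g i else 1) ∈ X := by
      intro s
      induction s using Finset.induction_on with
      | empty =>
        have : (fun i => if i ∈ (∅ : Finset I) then e g i else 1) = (1 : ∀ i, L i) := by
          funext i
          simp
        rw [this, map_one]
        exact X.one_mem
      | insert i s his ih =>
        have : (fun j => if j ∈ insert i s then e g j else 1) =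
            Pi.mulSingle i (e g i) * (fun j => if j ∈ s then e g j else 1 : ∀ i, L i) := by
          funext j
          rw [Pi.mul_apply]
          by_cases hj : j = i
          · subst hj
            simp [his]
          · simp [hj]
        rw [this, map_mul]
        exact X.mul_mem (hone i) ih
    have h1 := hind Finset.univ
    have h2 : (fun i => if i ∈ (Finset.univ : Finset I) then e g i else 1) = e g := by
      funext i
      simp
    rw [h2, MulEquiv.symm_apply_apply] at h1
    exact h1

theorem pf_QKK (hNPI : T_NPI) : T_QKK := by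
  intro P hP G G' _ _ p hp hK
  obtain ⟨I, hI, L, iL, π, hπ, hsol, hPL⟩ := hK
  have hXn : (p.ker.map π).Normal := Subgroup.Normal.map inferInstance π hπ
  obtain ⟨J, hJ⟩ := hNPI (MulEquiv.refl (∀ i, L i)) (fun i => hP.simple _ _ (hPL i))
    (fun i => hP.noncomm _ _ (hPL i)) (p.ker.map π) hXn
  have hmem : ∀ g : G, (∀ i, i ∉ J → π g i = 1) → ∃ k ∈ p.ker, π k = π g := by
    intro g hg
    have h1 : π g ∈ p.ker.map π := by
      rw [hJ]
      exact hg
    exact Subgroup.mem_map.1 h1
  let π1 : G →* ∀ i : {i // i ∉ J}, L i.1 :=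
    { toFun := fun g i => π g i.1
      map_one' := by
        funext i
        rw [map_one]
        rfl
      map_mul' := by
        intro a b
        funext i
        rw [map_mul]
        rfl }
  have hker : p.ker ≤ π1.ker := by
    intro g hg
    have h1 : π g ∈ p.ker.map π := Subgroup.mem_map_of_mem π hg
    rw [hJ] at h1
    rw [MonoidHom.mem_ker]
    funext i
    exact h1 i.1 i.2
  let π' : G' →* ∀ i : {i // i ∉ J}, L i.1 := p.liftOfSurjective hp ⟨π1, hker⟩
  have hπ' : ∀ g, π' (p g) = π1 g := fun g =>
    p.liftOfRightInverse_comp_apply _ (Function.rightInverse_surjInv hp) ⟨π1, hker⟩ g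
  have hmemker : ∀ r : π.ker, p (r : G) ∈ π'.ker := by
    intro r
    rw [MonoidHom.mem_ker, hπ']
    have h1 : π (r : G) = 1 := r.2
    funext i
    change π (r : G) i.1 = 1
    rw [h1]
    rfl
  let φ : π.ker →* π'.ker := (p.comp π.ker.subtype).codRestrict π'.ker hmemker
  have hφ : Function.Surjective φ := by
    rintro ⟨g', hg'⟩
    obtain ⟨g, rfl⟩ := hp g'
    rw [MonoidHom.mem_ker, hπ'] at hg'
    obtain ⟨k, hk, hkg⟩ := hmem g (fun i hi => congrFun hg' ⟨i, hi⟩)
    have hr : k⁻¹ * g ∈ π.ker := by
      rw [MonoidHom.mem_ker, map_mul, map_inv, hkg, inv_mul_cancel]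
    refine ⟨⟨k⁻¹ * g, hr⟩, ?_⟩
    apply Subtype.ext
    change p (k⁻¹ * g) = p g
    rw [MonoidHom.mem_ker] at hk
    rw [map_mul, map_inv, hk, inv_one, one_mul]
  refine ⟨{i // i ∉ J}, inferInstance, fun i => L i.1, fun i => iL i.1, π', ?_, ?_,
    fun i => hPL i.1⟩
  · intro f
    obtain ⟨g, hg⟩ := hπ (fun i => by
      classical
      exact if h : i ∉ J then f ⟨i, h⟩ else 1)
    refine ⟨p g, ?_⟩
    rw [hπ']
    funext i
    change π g i.1 = f i
    rw [hg]
    simp only
    rw [dif_pos i.2]
  · haveI := hsol
    exact solvable_of_surjective hφ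

end Pool.Agent.H66.KGR
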