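import Pool.Agent.H77.KG.Targets

/-!
# MP_9d0bb7_lc, board kgr_modules: row SIR
-/

set_option autoImplicit false

namespace Pool.Agent.H66.KGR

open Set Pool.Agent.H77.BC Pool.Agent.H77.BD Pool.Agent.H77.KG

theorem pf_SIR : T_SIR := by
  intro l C hC hl F Γ _ _ _ x τ hCD X hX γ t ht hγ
  have step1 : ∀ (γ β : Root C), ip C β.1 γ.1 = -1 → ∀ t : F, t ≠ 0 → x γ t ∈ X →
      ∀ δ : Root C, δ.1 = β.1 + γ.1 → ∀ r : F, x δ r ∈ X := by
    intro γ β hip t ht hγ δ hδ r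
    have hne : (eps C β.1 γ.1 : F) * t ≠ 0 := mul_ne_zero (eps_ne_zero_F _ _) ht
    have h1 := hCD.com β γ δ hδ (r / ((eps C β.1 γ.1 : F) * t)) t
    have e : (eps C β.1 γ.1 : F) * (r / ((eps C β.1 γ.1 : F) * t)) * t = r := by
      have h2 := eps_ne_zero_F (F := F) (C := C) β.1 γ.1
      field_simp
    rw [e] at h1
    have h2 : x δ r = (x β (r / ((eps C β.1 γ.1 : F) * t)) * x γ t *
        (x β (r / ((eps C β.1 γ.1 : F) * t)))⁻¹) * (x γ t)⁻¹ := by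
      rw [h1]
      group
    rw [h2]
    exact X.mul_mem (hX.conj_mem _ hγ _) (X.inv_mem hγ)
  have step2 : ∀ δ δ' : Root C, ip C δ.1 δ'.1 = 1 → (∀ r : F, x δ r ∈ X) →
      ∀ r : F, x δ' r ∈ X := by
    intro δ δ' hip hδ
    have h1 : ip C δ'.1 δ.1 = 1 := by rw [ip_comm hC]; exact hip
    have h2 : ip C (sb hC δ' δ h1).1 δ.1 = -1 := by
      rw [sb_val, ip_sub_left, h1, ip_self]
      norm_num
    exact step1 δ (sb hC δ' δ h1) h2 1 one_ne_zero (hδ 1) δ' (by rw [sb_val, sub_add_cancel])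
  obtain ⟨β, hβ⟩ := Pool.Agent.H77.BDS.a_NBR hC hl γ
  have hβ' : ip C β.1 γ.1 = -1 := by rw [ip_comm hC]; exact hβ
  have h0 : ∀ r : F, x (ad hC β γ hβ') r ∈ X := step1 γ β hβ' t ht hγ _ (ad_val hC β γ hβ')
  have hall : ∀ δ : Root C, ∀ r : F, x δ r ∈ X := by
    intro δ
    have hch := Pool.Agent.H77.BDS.a_RCH hC hl (ad hC β γ hβ') δ
    induction hch with
    | refl => exact h0
    | tail _ h ih => exact step2 _ _ h ih
  rw [eq_top_iff, ← hCD.gen, Subgroup.closure_le]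
  rintro g ⟨β, t, rfl⟩
  exact hall β t

end Pool.Agent.H66.KGR
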